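import Pool.Agent.VMX.StmtsC

/-!
# Squad VMX, row ATX (attracting rays of group elements are extreme)
-/

set_option autoImplicit false

open Matrix Filter Topology

namespace Pool.Agent.VMX.H60

open Pool.Agent.PFS Pool.Agent.PFJ Pool.Agent.NBT Pool.Agent.VMX

theorem pow_eig {n : ℕ} (H : V n →ₗ[ℝ] V n) (lam : ℝ) (hl : 0 < lam) (x : V n)
    (h : H x = lam • x) (m : ℕ) : (lam⁻¹) ^ m • (H ^ m) x = x := by
  have h2 : (H ^ m) x = lam ^ m • x := by
    induction m with
    | zero => simp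
    | succ m ih =>
      rw [pow_succ', Module.End.mul_apply, ih, map_smul, h, smul_smul, ← pow_succ]
  rw [h2, smul_smul, ← mul_pow, inv_mul_cancel₀ hl.ne', one_pow, one_smul]

theorem atx (h1 : AtfStmt) : AtxStmt := by
  intro n C Γ hC g hg s lam L x ψ hs hA hL y hy M hM
  have _ := h1
  have hP : PCone C := hC.toPCone
  have hyL : y ∈ L := hL y hy M hM
  obtain ⟨hU, hE, -⟩ := fcs n C hP x hA.cl
  set E := Submodule.span ℝ (Face C x) with hEdef
  have hxE : x ∈ E := hU.1
  set u : V n := y - ψ y • x with hu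
  have huL : u ∈ L := L.sub_mem hyL (L.smul_mem _ hA.mem)
  have huE : u ∈ E := E.sub_mem (hE y hy M hM) (E.smul_mem _ hxE)
  have hψ : ψ u = 0 := by
    rw [hu, map_sub, map_smul, hA.one, smul_eq_mul, mul_one, sub_self]
  -- the linear maps `T m = lam^{-m} H^m`
  have hT : ∀ (m : ℕ) (v : V n),
      (lam⁻¹) ^ m • ((sA s g) ^ m) v ∈ closure C ↔ v ∈ closure C := by
    intro m v
    rw [sA_pow, smul_smul]
    exact hC.sact_cl_iff (Γ.pow_mem hg m)
      (mul_pos (pow_pos (inv_pos.2 hA.pos) m) (pow_pos hs m))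
  have hTx : ∀ m : ℕ, (lam⁻¹) ^ m • ((sA s g) ^ m) x = x := fun m =>
    pow_eig _ lam hA.pos x hA.eig m
  have hTa : ∀ (m : ℕ) (δ : ℝ) (v : V n), (lam⁻¹) ^ m • ((sA s g) ^ m) (δ • x + v) =
      δ • x + (lam⁻¹) ^ m • ((sA s g) ^ m) v := by
    intro m δ v
    rw [map_add, map_smul, smul_add, smul_comm, hTx]
  have hTs : ∀ (m : ℕ) (δ : ℝ) (v : V n), (lam⁻¹) ^ m • ((sA s g) ^ m) (δ • x - v) =
      δ • x - (lam⁻¹) ^ m • ((sA s g) ^ m) v := by
    intro m δ v
    rw [map_sub, map_smul, smul_sub, smul_comm, hTx]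
  set z : ℕ → V n := fun m => (lam⁻¹) ^ m • ((sA s g) ^ m) u with hz
  obtain ⟨M', hM', h3, h4⟩ := unt_two hP hU huE
  have hzE : ∀ m, z m ∈ E := by
    intro m
    have h5 : M' • x + z m ∈ closure C := by
      have h6 := (hT m (M' • x + u)).2 h4
      rw [hTa] at h6
      exact h6
    have h7 : M' • x - z m ∈ closure C := by
      have h6 := (hT m (M' • x - u)).2 h3
      rw [hTs] at h6
      exact h6
    have h8 : M' • x + z m ∈ E := by
      refine hE _ h5 (2 * M') ?_
      have h9 : (2 * M') • x - (M' • x + z m) = M' • x - z m := by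
        rw [two_mul, add_smul]; abel
      rw [h9]
      exact h7
    have h10 : z m = (M' • x + z m) - M' • x := by abel
    rw [h10]
    exact E.sub_mem h8 (E.smul_mem _ hxE)
  have hz0 : Tendsto z atTop (𝓝 0) := by
    have h5 := hA.lim u huL
    rw [hψ, zero_smul] at h5
    exact h5
  have hup := uop n C hP E x hU
  have hδ : ∀ δ : ℝ, 0 < δ → u + δ • x ∈ closure C ∧ -u + δ • x ∈ closure C := by
    intro δ hd
    have h5 : Tendsto (fun m => δ⁻¹ • z m) atTop (𝓝 0) := by
      have h6 := hz0.const_smul δ⁻¹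
      rw [smul_zero] at h6
      exact h6
    have h6 : Tendsto (fun m => -(δ⁻¹ • z m)) atTop (𝓝 0) := by
      have h7 := h5.neg
      rw [neg_zero] at h7
      exact h7
    have e1 := hup (fun m => δ⁻¹ • z m) (fun m => E.smul_mem _ (hzE m)) h5
    have e2 := hup (fun m => -(δ⁻¹ • z m)) (fun m => E.neg_mem (E.smul_mem _ (hzE m))) h6
    obtain ⟨m, e3, e4⟩ := (e1.and e2).exists
    have e5 : δ • x + z m ∈ closure C := by
      have e6 := hP.cl_smul e3 hd.le
      rw [smul_add, smul_smul, mul_inv_cancel₀ hd.ne', one_smul] at e6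
      exact e6
    have e7 : δ • x - z m ∈ closure C := by
      have e6 := hP.cl_smul e4 hd.le
      rw [smul_add, smul_neg, smul_smul, mul_inv_cancel₀ hd.ne', one_smul, ← sub_eq_add_neg] at e6
      exact e6
    constructor
    · rw [add_comm, ← hT m, hTa]
      exact e5
    · rw [add_comm, ← sub_eq_add_neg, ← hT m, hTs]
      exact e7
  have hu1 : u ∈ closure C := cl_of_eps fun δ hd => (hδ δ hd).1
  have hu2 : -u ∈ closure C := cl_of_eps fun δ hd => (hδ δ hd).2
  have hu0 : u = 0 := hP.salient u hu1 hu2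
  exact ⟨ψ y, sub_eq_zero.1 hu0⟩

end Pool.Agent.VMX.H60
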